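import Pool.Agent.Hhelper47.StrongCol.Lower

/-!
Exact reduction of the exponent `x_{t,ℓ}` to a finite extremal problem on `t`-intersecting set
families: `x_{t,ℓ}` is the largest `t`-covering number of a `t`-intersecting family of sets of
size at most `t + ℓ - 2`.
-/

set_option autoImplicit false

namespace Pool.Agent.Results.MP_5b9121_co.ExactReduction

open Pool.Agent.Hhelper47.StrongCol

/-- For all `t, ℓ ≥ 1`: `x` is an admissible exponent for `(t, ℓ)` if and only if every
`t`-intersecting family of sets of size at most `t + ℓ - 2` has a `t`-cover of size at most `x`. -/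
theorem result (t ℓ x : ℕ) (ht : 1 ≤ t) (hℓ : 1 ≤ ℓ) :
    Exponent t ℓ x ↔ CoverBound t (t + ℓ - 2) x :=
  exponent_iff_coverBound ht hℓ

end Pool.Agent.Results.MP_5b9121_co.ExactReduction
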