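import Pool.Agent.Hhelper47.StrongCol.Small

/-!
The growth of the exponent `x_{t,ℓ}` for fixed `t` and `ℓ → ∞`.
-/

set_option autoImplicit false

namespace Pool.Agent.Results.MP_5b9121_co.FixedT

open Pool.Agent.Hhelper47.StrongCol

/-- For every fixed `t ≥ 1` there is a constant `c > 0` such that
`x_{t,ℓ} ≥ c (ℓ / log ℓ) ^ t` for all `ℓ ≥ 2`, and `x_{t,ℓ} ≥ c ℓ ^ t` if `t ≤ 3`. -/
theorem result (t : ℕ) (ht : 1 ≤ t) :
    ∃ c : ℝ, 0 < c ∧ ∀ ℓ x : ℕ, 2 ≤ ℓ → Exponent t ℓ x →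
      c * ((ℓ : ℝ) / Real.log ℓ) ^ t ≤ x ∧ (t ≤ 3 → c * (ℓ : ℝ) ^ t ≤ x) := by
  obtain ⟨c, hc, h⟩ := growth t ht
  by_cases h3 : t ≤ 3
  · obtain ⟨c', hc', h'⟩ := growth_small t ht h3
    refine ⟨min c c', lt_min hc hc', fun ℓ x hℓ hx => ⟨?_, fun _ => ?_⟩⟩
    · refine le_trans ?_ (h ℓ x hℓ hx)
      refine mul_le_mul_of_nonneg_right (min_le_left _ _) ?_
      have : 0 ≤ Real.log ℓ := Real.log_natCast_nonneg ℓ
      positivity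
    · refine le_trans ?_ (h' ℓ x hℓ hx)
      exact mul_le_mul_of_nonneg_right (min_le_right _ _) (by positivity)
  · exact ⟨c, hc, fun ℓ x hℓ hx => ⟨h ℓ x hℓ hx, fun h4 => absurd h4 h3⟩⟩

end Pool.Agent.Results.MP_5b9121_co.FixedT
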