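import Pool.Agent.Hhelper47.StrongCol.Threshold

/-!
The exact value of the exponent `x_{t,ℓ}` for every `ℓ ≥ 2` and all large `t` (all `t` if `ℓ ≤ 3`,
all `t ≥ 9(ℓ-2)^4` in general): it is the covering number `C(t + 2ℓ - 4, 2ℓ - 4, ℓ - 2)`.
-/

set_option autoImplicit false

namespace Pool.Agent.Results.MP_5b9121_co.LargeT

open Pool.Agent.Hhelper47.StrongCol

/-- For `t ≥ 1`, `ℓ ≥ 2` with `ℓ ≤ 3`, or `t ≥ 9(ℓ-2)⁴`, or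
`2(ℓ-2)² C(2ℓ-4, ℓ-2) ≤ t + 2ℓ - 4`, the least admissible exponent `x_{t,ℓ}` is the least number of
`(2ℓ-4)`-subsets of a `(t+2ℓ-4)`-set such that every `(ℓ-2)`-subset is contained in one of them. -/
theorem result (t ℓ : ℕ) (ht : 1 ≤ t) (hℓ : 2 ≤ ℓ)
    (h : ℓ ≤ 3 ∨ 9 * (ℓ - 2) ^ 4 ≤ t ∨
      2 * (ℓ - 2) ^ 2 * (2 * ℓ - 4).choose (ℓ - 2) ≤ t + 2 * ℓ - 4) :
    IsLeast {x : ℕ | Exponent t ℓ x} (coveringNumber (t + 2 * ℓ - 4) (2 * ℓ - 4) (ℓ - 2)) :=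
  isLeast_exponent_poly ht hℓ h

end Pool.Agent.Results.MP_5b9121_co.LargeT
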