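import Pool.Agent.Hhelper47.StrongCol.Values

/-!
The exact value of the exponent for `t = 1`.
-/

set_option autoImplicit false

namespace Pool.Agent.Results.MP_5b9121_co.TOne

open Pool.Agent.Hhelper47.StrongCol

/-- `x_{1,ℓ} = ℓ - 1` for every `ℓ ≥ 1`. -/
theorem result (ℓ : ℕ) (hℓ : 1 ≤ ℓ) : IsLeast {x : ℕ | Exponent 1 ℓ x} (ℓ - 1) := by
  have hk : 1 + ℓ - 2 = ℓ - 1 := by omega
  constructor
  · rw [Set.mem_ofPred_eq, exponent_iff_coverBound le_rfl hℓ, hk]
    exact coverBound_one_of_le le_rfl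
  · intro x hx
    rw [Set.mem_ofPred_eq, exponent_iff_coverBound le_rfl hℓ, hk] at hx
    exact le_of_coverBound_one hx

end Pool.Agent.Results.MP_5b9121_co.TOne
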